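import Mathlib

/-!
# MP_628ecd_an: a strictly singular non-compact composition operator

The space `E` consists of the functions `f(z) = ∑ x_m z^(2m+1) + ∑ y_m (z^2/2)^m` on the unit disc
with `x ∈ ℓ¹`, `y ∈ ℓ^∞` and the norm `max (‖x‖, ‖y‖)`; the symbol is `φ(z) = z^2/2`.
-/

set_option autoImplicit false

namespace Pool.Agent.Results.MP_628ecd_an.SquareHalf

open Metric Set Filter Topology
open scoped ENNReal

/-- The open unit disc. -/
abbrev 𝔻 : Set ℂ := ball (0 : ℂ) 1

/-- `(E, ι)` is a Banach space of analytic functions on the unit disc: the normed space `E` is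
complete, `ι` identifies its elements with functions on the disc, these functions are analytic, and
all point evaluations are continuous. -/
structure IsBanachSpaceOfAnalyticFunctions (E : Type) [NormedAddCommGroup E] [NormedSpace ℂ E]
    (ι : E →ₗ[ℂ] (𝔻 → ℂ)) : Prop where
  complete : CompleteSpace E
  injective : Function.Injective ι
  analytic : ∀ f : E, ∃ F : ℂ → ℂ, AnalyticOnNhd ℂ F 𝔻 ∧ ∀ z : 𝔻, ι f z = F z
  eval_continuous : ∀ z : 𝔻, Continuous fun f : E => ι f z

/-- Strictly singular operators: bounded below on no closed infinite-dimensional subspace. -/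
def StrictlySingular {E : Type} [NormedAddCommGroup E] [NormedSpace ℂ E] (T : E →L[ℂ] E) : Prop :=
  ∀ M : Submodule ℂ E, IsClosed (M : Set E) → ¬ FiniteDimensional ℂ M →
    ¬ ∃ c : ℝ, 0 < c ∧ ∀ x ∈ M, c * ‖x‖ ≤ ‖T x‖

/-- The space `ℓ¹`. -/
abbrev L1 : Type := lp (fun _ : ℕ => ℂ) 1

/-- The space `ℓ^∞`. -/
abbrev Li : Type := lp (fun _ : ℕ => ℂ) ∞

/-- The space of our functions, by its coefficients. -/
abbrev E : Type := L1 × Li

lemma L1_summable (x : L1) : Summable fun m => ‖x m‖ := by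
  have := (lp.memℓp x).summable (by norm_num)
  simpa using this

lemma L1_norm (x : L1) : ‖x‖ = ∑' m, ‖x m‖ := by
  have := lp.norm_eq_tsum_rpow (p := 1) (by norm_num) x
  simpa using this

lemma Li_le (y : Li) (m : ℕ) : ‖y m‖ ≤ ‖y‖ := lp.norm_apply_le_norm (by norm_num) y m

lemma L1_le (x : L1) (m : ℕ) : ‖x m‖ ≤ ‖x‖ := lp.norm_apply_le_norm (by norm_num) x m

lemma pow_le (z : ℂ) (hz : z ∈ 𝔻) (k : ℕ) : ‖z ^ k‖ ≤ 1 := by
  rw [norm_pow]
  exact pow_le_one₀ (norm_nonneg _) (by simpa using (mem_ball_zero_iff.1 hz).le)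

lemma half_sq (z : ℂ) (hz : z ∈ 𝔻) : ‖z ^ 2 / 2‖ ≤ 1 / 2 := by
  rw [norm_div, Complex.norm_ofNat]
  have := pow_le z hz 2
  linarith

lemma half_sq_pow (z : ℂ) (hz : z ∈ 𝔻) (m : ℕ) : ‖(z ^ 2 / 2) ^ m‖ ≤ (1 / 2 : ℝ) ^ m := by
  rw [norm_pow]
  exact pow_le_pow_left₀ (norm_nonneg _) (half_sq z hz) m

lemma bd1 (x : L1) (z : ℂ) (hz : z ∈ 𝔻) (m : ℕ) : ‖x m * z ^ (2 * m + 1)‖ ≤ ‖x m‖ := by
  rw [norm_mul]
  exact mul_le_of_le_one_right (norm_nonneg _) (pow_le z hz _)

lemma bd2 (y : Li) (z : ℂ) (hz : z ∈ 𝔻) (m : ℕ) :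
    ‖y m * (z ^ 2 / 2) ^ m‖ ≤ ‖y‖ * (1 / 2 : ℝ) ^ m := by
  rw [norm_mul]
  exact mul_le_mul (Li_le y m) (half_sq_pow z hz m) (norm_nonneg _) (norm_nonneg _)

lemma sum2 (C : ℝ) : Summable fun m : ℕ => C * (1 / 2 : ℝ) ^ m :=
  summable_geometric_two.mul_left C

lemma s1 (x : L1) (z : ℂ) (hz : z ∈ 𝔻) : Summable fun m => x m * z ^ (2 * m + 1) :=
  Summable.of_norm_bounded (L1_summable x) (bd1 x z hz)

lemma s2 (y : Li) (z : ℂ) (hz : z ∈ 𝔻) : Summable fun m => y m * (z ^ 2 / 2) ^ m :=
  Summable.of_norm_bounded (sum2 ‖y‖) (bd2 y z hz)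

/-- The function with given coefficients. -/
noncomputable def fn (f : E) (z : ℂ) : ℂ :=
  (∑' m, f.1 m * z ^ (2 * m + 1)) + ∑' m, f.2 m * (z ^ 2 / 2) ^ m

lemma fn_analytic (f : E) : AnalyticOnNhd ℂ (fn f) 𝔻 := by
  refine DifferentiableOn.analyticOnNhd ?_ isOpen_ball
  refine DifferentiableOn.add ?_ ?_
  · refine Complex.differentiableOn_tsum_of_summable_norm (L1_summable f.1) (fun m => ?_) isOpen_ball
      (fun m w hw => bd1 f.1 w hw m)
    exact Differentiable.differentiableOn (by fun_prop)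
  · refine Complex.differentiableOn_tsum_of_summable_norm (sum2 ‖f.2‖) (fun m => ?_) isOpen_ball
      (fun m w hw => bd2 f.2 w hw m)
    exact Differentiable.differentiableOn (by fun_prop)

/-- The identification of the elements of `E` with functions on the disc. -/
noncomputable def ι : E →ₗ[ℂ] (𝔻 → ℂ) where
  toFun f z := fn f z
  map_add' f g := by
    funext z
    simp only [fn, Pi.add_apply, Prod.fst_add, Prod.snd_add, lp.coeFn_add]
    rw [← add_add_add_comm, ← (s1 f.1 z z.2).tsum_add (s1 g.1 z z.2),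
      ← (s2 f.2 z z.2).tsum_add (s2 g.2 z z.2)]
    simp only [add_mul]
  map_smul' c f := by
    funext z
    simp only [fn, Pi.smul_apply, Prod.smul_fst, Prod.smul_snd, lp.coeFn_smul, smul_eq_mul,
      RingHom.id_apply, mul_add, mul_assoc, tsum_mul_left]

lemma fn_bound (f : E) (z : ℂ) (hz : z ∈ 𝔻) : ‖fn f z‖ ≤ 3 * ‖f‖ := by
  have h1 : ‖∑' m, f.1 m * z ^ (2 * m + 1)‖ ≤ ‖f.1‖ := by
    rw [L1_norm]
    exact tsum_of_norm_bounded (L1_summable f.1).hasSum (bd1 f.1 z hz)
  have h2 : ‖∑' m, f.2 m * (z ^ 2 / 2) ^ m‖ ≤ ‖f.2‖ * 2 :=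
    tsum_of_norm_bounded (hasSum_geometric_two.mul_left ‖f.2‖) (bd2 f.2 z hz)
  have h3 := norm_fst_le f
  have h4 := norm_snd_le f
  have h5 := norm_add_le (∑' m, f.1 m * z ^ (2 * m + 1)) (∑' m, f.2 m * (z ^ 2 / 2) ^ m)
  unfold fn
  linarith

/-- Uniqueness of the coefficients of a power series. -/
lemma pow_uniq (c : ℕ → ℂ) (C r : ℝ) (hr : 0 < r) (hc : ∀ m, ‖c m‖ ≤ C)
    (h : ∀ w : ℂ, w ≠ 0 → ‖w‖ < r → ∑' m, c m * w ^ m = 0) : ∀ m, c m = 0 := by
  intro m
  induction m using Nat.strong_induction_on with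
  | _ m ih =>
  have hC : 0 ≤ C := (norm_nonneg _).trans (hc 0)
  by_contra hne
  have hpos : 0 < ‖c m‖ := norm_pos_iff.2 hne
  obtain ⟨t, ht0, ht⟩ : ∃ t : ℝ, 0 < t ∧ t < min (min r (1 / 2)) (‖c m‖ / (2 * C + 1)) :=
    exists_between (by positivity)
  have htr : t < r := ht.trans_le ((min_le_left _ _).trans (min_le_left _ _))
  have ht2 : t < 1 / 2 := ht.trans_le ((min_le_left _ _).trans (min_le_right _ _))
  have ht3 : t < ‖c m‖ / (2 * C + 1) := ht.trans_le (min_le_right _ _)
  have hn : ‖(t : ℂ)‖ = t := by simp [abs_of_pos ht0]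
  have hb : ∀ k, ‖c (k + (m + 1)) * (t : ℂ) ^ k‖ ≤ C * (1 / 2 : ℝ) ^ k := fun k => by
    rw [norm_mul, norm_pow, hn]
    exact mul_le_mul (hc _) (pow_le_pow_left₀ ht0.le ht2.le k) (by positivity) hC
  have hs : Summable fun k => c k * (t : ℂ) ^ k := by
    refine Summable.of_norm_bounded (sum2 C) fun k => ?_
    rw [norm_mul, norm_pow, hn]
    exact mul_le_mul (hc _) (pow_le_pow_left₀ ht0.le ht2.le k) (by positivity) hC
  have h0 := h t (by exact_mod_cast ht0.ne') (by rw [hn]; exact htr)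
  rw [← hs.sum_add_tsum_nat_add (m + 1), Finset.sum_range_succ] at h0
  have h1 : ∑ k ∈ Finset.range m, c k * (t : ℂ) ^ k = 0 :=
    Finset.sum_eq_zero fun k hk => by rw [ih k (Finset.mem_range.1 hk), zero_mul]
  have h2 : ∑' k, c (k + (m + 1)) * (t : ℂ) ^ (k + (m + 1)) =
      (t : ℂ) ^ (m + 1) * ∑' k, c (k + (m + 1)) * (t : ℂ) ^ k := by
    rw [← tsum_mul_left]
    congr 1
    funext k
    ring
  rw [h1, zero_add, h2] at h0
  have h3 : c m + t * ∑' k, c (k + (m + 1)) * (t : ℂ) ^ k = 0 := by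
    have ht' : (t : ℂ) ^ m ≠ 0 := pow_ne_zero _ (by exact_mod_cast ht0.ne')
    apply mul_left_cancel₀ ht'
    rw [mul_zero, ← h0]
    ring
  have h4 : ‖∑' k, c (k + (m + 1)) * (t : ℂ) ^ k‖ ≤ C * 2 :=
    tsum_of_norm_bounded (hasSum_geometric_two.mul_left C) hb
  have h5 : ‖c m‖ ≤ t * (C * 2) := by
    rw [eq_neg_of_add_eq_zero_left h3, norm_neg, norm_mul, hn]
    exact mul_le_mul_of_nonneg_left h4 ht0.le
  rw [lt_div_iff₀ (by positivity)] at ht3
  nlinarith

lemma ι_injective : Function.Injective ι := by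
  rw [← LinearMap.ker_eq_bot, LinearMap.ker_eq_bot']
  intro f hf
  have h : ∀ z ∈ 𝔻, fn f z = 0 := fun z hz => congrFun hf ⟨z, hz⟩
  have hneg : ∀ z ∈ 𝔻, -z ∈ 𝔻 := fun z hz => by simpa using hz
  have hodd : ∀ z : ℂ, ∑' m, f.1 m * (-z) ^ (2 * m + 1) = - ∑' m, f.1 m * z ^ (2 * m + 1) := by
    intro z
    rw [← tsum_neg]
    congr 1
    funext m
    rw [Odd.neg_pow ⟨m, rfl⟩]
    ring
  have hev : ∀ z : ℂ, ∑' m, f.2 m * ((-z) ^ 2 / 2) ^ m = ∑' m, f.2 m * (z ^ 2 / 2) ^ m := by
    intro z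
    rw [neg_sq]
  have h1 : ∀ z ∈ 𝔻, ∑' m, f.1 m * z ^ (2 * m + 1) = 0 := by
    intro z hz
    have e1 := h z hz
    have e2 := h (-z) (hneg z hz)
    unfold fn at e1 e2
    rw [hodd, hev] at e2
    linear_combination (1 / 2) * e1 - (1 / 2) * e2
  have h2 : ∀ z ∈ 𝔻, ∑' m, f.2 m * (z ^ 2 / 2) ^ m = 0 := by
    intro z hz
    have e1 := h z hz
    unfold fn at e1
    rw [h1 z hz, zero_add] at e1
    exact e1
  have root : ∀ w : ℂ, ∃ z : ℂ, z ^ 2 = w := fun w => by
    obtain ⟨z, hz⟩ := IsAlgClosed.exists_pow_nat_eq w (n := 2) (by norm_num)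
    exact ⟨z, hz⟩
  have hx : ∀ m, f.1 m = 0 := by
    refine pow_uniq _ ‖f.1‖ 1 one_pos (L1_le f.1) fun w hw hw1 => ?_
    obtain ⟨z, rfl⟩ := root w
    have hz : z ∈ 𝔻 := by
      rw [norm_pow] at hw1
      rw [mem_ball_zero_iff]
      by_contra hc
      push Not at hc
      exact absurd hw1 (not_lt.2 (one_le_pow₀ hc))
    have hz0 : z ≠ 0 := fun h => hw (by rw [h]; simp)
    apply mul_left_cancel₀ hz0
    rw [mul_zero, ← h1 z hz, ← tsum_mul_left]
    congr 1
    funext m
    ring
  have hy : ∀ m, f.2 m = 0 := by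
    refine pow_uniq _ ‖f.2‖ (1 / 2) (by norm_num) (Li_le f.2) fun w hw hw1 => ?_
    obtain ⟨z, hzw⟩ := root (2 * w)
    have hz : z ∈ 𝔻 := by
      rw [mem_ball_zero_iff]
      by_contra hc
      push Not at hc
      have : ‖z ^ 2‖ = 2 * ‖w‖ := by rw [hzw]; simp
      rw [norm_pow] at this
      have h1 : 1 ≤ ‖z‖ ^ 2 := one_le_pow₀ hc
      linarith
    have := h2 z hz
    rw [hzw] at this
    simpa using this
  refine Prod.ext (lp.ext (funext fun m => ?_)) (lp.ext (funext fun m => ?_))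
  · simpa using hx m
  · simpa using hy m

lemma isBanach : IsBanachSpaceOfAnalyticFunctions E ι where
  complete := inferInstance
  injective := ι_injective
  analytic f := ⟨fn f, fn_analytic f, fun _ => rfl⟩
  eval_continuous z := by
    let L : E →ₗ[ℂ] ℂ := (LinearMap.proj z).comp ι
    exact (L.mkContinuous 3 fun f => fn_bound f z z.2).continuous

/-- The coefficients of the image. -/
noncomputable def im (f : E) (k : ℕ) : ℂ :=
  if k % 2 = 1 then f.1 (k / 2) else (1 / 2) ^ (k / 2) * f.2 (k / 2)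

lemma im_odd (f : E) (m : ℕ) : im f (2 * m + 1) = f.1 m := by
  have h1 : (2 * m + 1) % 2 = 1 := by omega
  have h2 : (2 * m + 1) / 2 = m := by omega
  simp [im, h1, h2]

lemma im_even (f : E) (m : ℕ) : im f (2 * m) = (1 / 2) ^ m * f.2 m := by
  have h1 : (2 * m) % 2 ≠ 1 := by omega
  have h2 : (2 * m) / 2 = m := by omega
  simp [im, h2]

lemma im_le (f : E) (k : ℕ) : ‖im f k‖ ≤ ‖f‖ := by
  unfold im
  split
  · exact (L1_le f.1 _).trans (norm_fst_le f)
  · rw [norm_mul, norm_pow]
    refine (mul_le_of_le_one_left (norm_nonneg _) ?_).trans ((Li_le f.2 _).trans (norm_snd_le f))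
    exact pow_le_one₀ (norm_nonneg _) (by norm_num)

/-- The coefficients of the image, as an element of `ℓ^∞`. -/
noncomputable def imL : E →ₗ[ℂ] Li where
  toFun f := ⟨im f, memℓp_infty ⟨‖f‖, by rintro _ ⟨k, rfl⟩; exact im_le f k⟩⟩
  map_add' f g := by
    refine lp.ext (funext fun k => ?_)
    simp only [im, Prod.fst_add, Prod.snd_add, lp.coeFn_add, Pi.add_apply]
    split <;> ring
  map_smul' c f := by
    refine lp.ext (funext fun k => ?_)
    simp only [im, Prod.smul_fst, Prod.smul_snd, lp.coeFn_smul, Pi.smul_apply, smul_eq_mul,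
      RingHom.id_apply]
    split <;> ring

lemma imL_apply (f : E) (k : ℕ) : imL f k = im f k := rfl

/-- The composition operator. -/
noncomputable def C : E →L[ℂ] E :=
  (ContinuousLinearMap.inr ℂ L1 Li).comp
    (imL.mkContinuous 1 fun f => by
      rw [one_mul]
      exact lp.norm_le_of_forall_le (norm_nonneg _) (im_le f))

lemma C_fst (f : E) : (C f).1 = 0 := rfl

lemma C_snd (f : E) (k : ℕ) : (C f).2 k = im f k := rfl

lemma maps : MapsTo (fun z : ℂ => z ^ 2 / 2) 𝔻 𝔻 := fun z hz => by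
  rw [mem_ball_zero_iff]
  exact lt_of_le_of_lt (half_sq z hz) (by norm_num)

lemma C_spec (f : E) (z : ℂ) (hz : z ∈ 𝔻) : fn (C f) z = fn f (z ^ 2 / 2) := by
  set w : ℂ := z ^ 2 / 2 with hw
  have hwD : w ∈ 𝔻 := maps hz
  have h1 : fn (C f) z = ∑' k, im f k * w ^ k := by
    unfold fn
    rw [C_fst]
    simp [C_snd, ← hw]
  have e1 : ∀ m, im f (2 * m) * w ^ (2 * m) = f.2 m * (w ^ 2 / 2) ^ m := fun m => by
    clear_value w
    rw [im_even, pow_mul, div_pow (w ^ 2) 2 m, div_pow 1 2 m, one_pow]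
    ring
  have e2 : ∀ m, im f (2 * m + 1) * w ^ (2 * m + 1) = f.1 m * w ^ (2 * m + 1) := fun m => by
    rw [im_odd]
  rw [h1, ← tsum_even_add_odd (f := fun k => im f k * w ^ k)]
  · simp only [e1, e2]
    unfold fn
    rw [add_comm]
  · simp only [e1]
    exact s2 f.2 w hwD
  · simp only [e2]
    exact s1 f.1 w hwD

lemma strictlySingular : StrictlySingular C := by
  rintro M - hM ⟨c, hc, hCc⟩
  -- a finite codimensional part of `M` on which the sup norm of the first component dominates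
  obtain ⟨n, hn⟩ : ∃ n : ℕ, (1 / 2 : ℝ) ^ n < c / 2 :=
    exists_pow_lt_of_lt_one (by positivity) (by norm_num)
  have key : ∀ f ∈ M, (∀ m < n, f.2 m = 0) → (∀ m, ‖f.1 m‖ ≤ 1) → c * ‖f‖ ≤ 1 := by
    intro f hf hfn hf1
    have h1 := hCc f hf
    by_contra hcon
    push Not at hcon
    have hfp : 0 < ‖f‖ := by
      rcases (norm_nonneg f).eq_or_lt with h | h
      · rw [← h] at hcon; linarith
      · exact h
    have h2 : ‖C f‖ ≤ max 1 (c / 2 * ‖f‖) := by
      have h3 : ‖C f‖ = ‖(C f).2‖ := by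
        rw [Prod.norm_def, C_fst, norm_zero]
        exact max_eq_right (norm_nonneg _)
      rw [h3]
      refine lp.norm_le_of_forall_le (by positivity) fun k => ?_
      rw [C_snd]
      rcases Nat.even_or_odd' k with ⟨m, rfl | rfl⟩
      · rw [im_even]
        refine le_max_of_le_right ?_
        by_cases hm : m < n
        · rw [hfn m hm, mul_zero, norm_zero]; positivity
        · rw [norm_mul, norm_pow]
          have e1 : ‖(1 / 2 : ℂ)‖ ^ m ≤ c / 2 := by
            have : ‖(1 / 2 : ℂ)‖ = 1 / 2 := by simp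
            rw [this]
            exact (pow_le_pow_of_le_one (by norm_num) (by norm_num) (not_lt.1 hm)).trans hn.le
          exact mul_le_mul e1 ((Li_le f.2 m).trans (norm_snd_le f)) (norm_nonneg _) (by positivity)
      · rw [im_odd]
        exact le_max_of_le_left (hf1 m)
    have h3 : c / 2 * ‖f‖ < c * ‖f‖ := by nlinarith
    have h4 : max 1 (c / 2 * ‖f‖) < c * ‖f‖ := max_lt hcon h3
    linarith
  -- for each `k` there is a vector with sup norm one attained at `k` places
  have main : ∀ k : ℕ, ∃ f ∈ M, (∀ m < n, f.2 m = 0) ∧ (∀ m, ‖f.1 m‖ ≤ 1) ∧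
      ∃ A : Finset ℕ, A.card = k ∧ ∀ m ∈ A, ‖f.1 m‖ = 1 := by
    intro k
    induction k with
    | zero => exact ⟨0, M.zero_mem, fun m _ => rfl, fun m => by simp, ∅, rfl, by simp⟩
    | succ k ih =>
      obtain ⟨f, hfM, hf2, hf1, A, hA, hfA⟩ := ih
      by_cases hex : ∃ m, m ∉ A ∧ ‖f.1 m‖ = 1
      · obtain ⟨m, hmA, hm⟩ := hex
        refine ⟨f, hfM, hf2, hf1, insert m A, by rw [Finset.card_insert_of_notMem hmA, hA], ?_⟩
        intro j hj
        rcases Finset.mem_insert.1 hj with rfl | hj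
        · exact hm
        · exact hfA j hj
      push Not at hex
      -- a vector of `M` whose relevant coordinates vanish
      obtain ⟨g, hgM, hg0, hg2, hgA⟩ : ∃ g ∈ M, g ≠ 0 ∧ (∀ m < n, g.2 m = 0) ∧
          ∀ m ∈ A, g.1 m = 0 := by
        by_contra hcon
        push Not at hcon
        apply hM
        let e1 : E →ₗ[ℂ] (Fin n → ℂ) :=
          { toFun := fun f i => f.2 i
            map_add' := fun _ _ => rfl
            map_smul' := fun _ _ => rfl }
        let e2 : E →ₗ[ℂ] (A → ℂ) :=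
          { toFun := fun f i => f.1 i
            map_add' := fun _ _ => rfl
            map_smul' := fun _ _ => rfl }
        refine FiniteDimensional.of_injective ((e1.prod e2).comp M.subtype) ?_
        rw [← LinearMap.ker_eq_bot, LinearMap.ker_eq_bot']
        rintro ⟨g, hg⟩ h0
        by_contra hne
        have hgne : g ≠ 0 := fun h => hne (Subtype.ext h)
        have ha : e1 g = 0 := congrArg Prod.fst h0
        have hb : e2 g = 0 := congrArg Prod.snd h0
        obtain ⟨m, hmA, hm⟩ := hcon g hg hgne fun m hm => congrFun ha ⟨m, hm⟩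
        exact hm (congrFun hb ⟨m, hmA⟩)
      -- `g.1` is not zero
      have hg1 : ∃ m, g.1 m ≠ 0 := by
        by_contra hcon
        push Not at hcon
        have hgp : 0 < ‖g‖ := norm_pos_iff.2 hg0
        have := key ((2 / (c * ‖g‖) : ℂ) • g) (M.smul_mem _ hgM)
          (fun m hm => by
            simp only [Prod.smul_snd, lp.coeFn_smul, Pi.smul_apply, hg2 m hm, smul_zero])
          (fun m => by
            simp only [Prod.smul_fst, lp.coeFn_smul, Pi.smul_apply, hcon m, smul_zero,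
              norm_zero]
            norm_num)
        rw [norm_smul, norm_div, norm_mul] at this
        simp only [Complex.norm_ofNat, Complex.norm_real, Real.norm_eq_abs, abs_norm,
          abs_of_pos hc] at this
        have e : c * (2 / (c * ‖g‖) * ‖g‖) = 2 := by field_simp
        linarith
      obtain ⟨p, hp⟩ := hg1
      have hpA : p ∉ A := fun h => hp (hgA p h)
      -- restriction of the first component to the complement of `A`
      let R : E →ₗ[ℂ] Li :=
        { toFun := fun f => ⟨fun m => if m ∈ A then 0 else f.1 m, memℓp_infty ⟨‖f.1‖, by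
            rintro _ ⟨m, rfl⟩
            simp only
            split
            · simp
            · exact L1_le f.1 m⟩⟩
          map_add' := fun f g => by
            refine lp.ext (funext fun m => ?_)
            simp only [Prod.fst_add, lp.coeFn_add, Pi.add_apply]
            split <;> simp
          map_smul' := fun a f => by
            refine lp.ext (funext fun m => ?_)
            simp only [Prod.smul_fst, lp.coeFn_smul, Pi.smul_apply, RingHom.id_apply]
            split <;> simp }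
      have hR : ∀ f m, R f m = if m ∈ A then 0 else f.1 m := fun _ _ => rfl
      have hRA : ∀ f m, m ∉ A → R f m = f.1 m := fun f m hm => by rw [hR, if_neg hm]
      -- the sup norm is attained
      have att : ∀ f : E, ‖R f‖ = 1 → ∃ m, m ∉ A ∧ ‖f.1 m‖ = 1 := by
        intro f hf
        by_contra hcon
        push Not at hcon
        have hle : ∀ m, ‖R f m‖ < 1 := by
          intro m
          have h1 : ‖R f m‖ ≤ 1 := hf ▸ Li_le (R f) m
          rcases h1.lt_or_eq with h | h
          · exact h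
          · exfalso
            by_cases hm : m ∈ A
            · rw [hR, if_pos hm, norm_zero] at h; norm_num at h
            · rw [hRA f m hm] at h; exact hcon m hm h
        have hlim : Tendsto (fun m => ‖f.1 m‖) atTop (𝓝 0) :=
          (L1_summable f.1).tendsto_atTop_zero
        obtain ⟨N, hN⟩ := eventually_atTop.1 (hlim.eventually (gt_mem_nhds (show (0 : ℝ) < 1 / 2 by
          norm_num)))
        obtain ⟨q, hq1, hq⟩ : ∃ q < (1 : ℝ), ∀ m < N, ‖R f m‖ ≤ q := by
          clear hlim hN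
          induction N with
          | zero => exact ⟨0, by norm_num, by simp⟩
          | succ N ih =>
            obtain ⟨q, hq1, hq⟩ := ih
            refine ⟨max q ‖R f N‖, max_lt hq1 (hle N), fun m hm => ?_⟩
            rcases Nat.lt_succ_iff_lt_or_eq.1 hm with h | rfl
            · exact (hq m h).trans (le_max_left _ _)
            · exact le_max_right _ _
        have : ‖R f‖ ≤ max (max q 0) (1 / 2) := by
          refine lp.norm_le_of_forall_le (by positivity) fun m => ?_
          by_cases hm : m < N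
          · exact (hq m hm).trans ((le_max_left _ _).trans (le_max_left _ _))
          · refine le_max_of_le_right ?_
            rw [hR]
            split
            · simp
            · exact (hN m (not_lt.1 hm)).le
        rw [hf] at this
        have h2 : max (max q 0) (1 / 2) < (1 : ℝ) :=
          max_lt (max_lt hq1 one_pos) (by norm_num)
        linarith
      have hcont : Continuous fun t : ℝ => ‖R (f + (t : ℂ) • g)‖ := by
        have : (fun t : ℝ => ‖R (f + (t : ℂ) • g)‖) = fun t : ℝ => ‖R f + (t : ℂ) • R g‖ := by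
          funext t
          rw [map_add, map_smul]
        rw [this]
        fun_prop
      have h0 : ‖R (f + ((0 : ℝ) : ℂ) • g)‖ < 1 := by
        have e : f + ((0 : ℝ) : ℂ) • g = f := by simp
        rw [e]
        have hle : ‖R f‖ ≤ 1 := lp.norm_le_of_forall_le zero_le_one fun m => by
          rw [hR]
          split
          · simp
          · exact hf1 m
        rcases hle.lt_or_eq with h | h
        · exact h
        · obtain ⟨m, hmA, hm⟩ := att f h
          exact absurd hm (hex m hmA)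
      have hgp : 0 < ‖R g p‖ := by
        rw [hRA g p hpA]; exact norm_pos_iff.2 hp
      obtain ⟨T, hT0, hT⟩ : ∃ T : ℝ, 0 ≤ T ∧ 1 ≤ ‖R (f + (T : ℂ) • g)‖ := by
        refine ⟨2 / ‖R g p‖, by positivity, ?_⟩
        refine le_trans ?_ (Li_le _ p)
        have e : R (f + ((2 / ‖R g p‖ : ℝ) : ℂ) • g) p = R f p +
            ((2 / ‖R g p‖ : ℝ) : ℂ) * R g p := by
          rw [map_add, map_smul]
          simp
        rw [e]
        have e1 : ‖((2 / ‖R g p‖ : ℝ) : ℂ) * R g p‖ = 2 := by
          rw [norm_mul, Complex.norm_real, Real.norm_of_nonneg (by positivity)]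
          field_simp
        have e2 : ‖R f p‖ ≤ 1 := by rw [hRA f p hpA]; exact hf1 p
        have e3 := norm_sub_norm_le (((2 / ‖R g p‖ : ℝ) : ℂ) * R g p) (-R f p)
        rw [norm_neg, sub_neg_eq_add, add_comm _ (R f p), e1] at e3
        linarith
      obtain ⟨t, -, ht⟩ := intermediate_value_Icc hT0 hcont.continuousOn ⟨h0.le, hT⟩
      obtain ⟨m, hmA, hm⟩ := att _ ht
      have hnew : ∀ j, (f + (t : ℂ) • g).1 j = f.1 j + t * g.1 j := fun j => rfl
      refine ⟨f + (t : ℂ) • g, M.add_mem hfM (M.smul_mem _ hgM), ?_, ?_, insert m A,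
        by rw [Finset.card_insert_of_notMem hmA, hA], ?_⟩
      · intro j hj
        have e : (f + (t : ℂ) • g).2 j = f.2 j + t * g.2 j := rfl
        rw [e, hf2 j hj, hg2 j hj, mul_zero, add_zero]
      · intro j
        by_cases hj : j ∈ A
        · rw [hnew, hgA j hj, mul_zero, add_zero]; exact hf1 j
        · rw [← hRA _ j hj]
          exact (Li_le _ j).trans ht.le
      · intro j hj
        rcases Finset.mem_insert.1 hj with rfl | hj
        · exact hm
        · rw [hnew, hgA j hj, mul_zero, add_zero]; exact hfA j hj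
  obtain ⟨k, hk⟩ := exists_nat_gt (1 / c)
  obtain ⟨f, hfM, hf2, hf1, A, hA, hfA⟩ := main k
  have h1 := key f hfM hf2 hf1
  have h2 : (k : ℝ) ≤ ‖f‖ := by
    refine le_trans ?_ (norm_fst_le f)
    rw [L1_norm]
    refine le_trans ?_ ((L1_summable f.1).sum_le_tsum A fun _ _ => norm_nonneg _)
    rw [Finset.sum_congr rfl hfA]
    simp [hA]
  rw [div_lt_iff₀ hc] at hk
  nlinarith

lemma not_compact : ¬ IsCompactOperator C := by
  intro hC
  obtain ⟨K, hK, hsub⟩ := IsCompactOperator.image_closedBall_subset_compact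
    (f := (C : E →ₗ[ℂ] E)) hC 1
  let e : ℕ → E := fun m => (lp.single 1 m (1 : ℂ), 0)
  have he : ∀ m, ‖e m‖ ≤ 1 := by
    intro m
    rw [Prod.norm_def]
    refine max_le ?_ (by simp [e])
    rw [lp.norm_single (by norm_num)]
    simp
  have heK : ∀ m, C (e m) ∈ K := fun m => hsub ⟨e m, by simpa using he m, rfl⟩
  obtain ⟨a, -, u, hu, hlim⟩ := hK.tendsto_subseq heK
  have hcau := hlim.cauchySeq
  obtain ⟨N, hN⟩ := Metric.cauchySeq_iff.1 hcau 1 one_pos
  have h1 := hN N le_rfl (N + 1) (Nat.le_succ N)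
  have hne : u N ≠ u (N + 1) := (hu (Nat.lt_succ_self N)).ne
  have h2 : 1 ≤ dist (C (e (u N))) (C (e (u (N + 1)))) := by
    rw [dist_eq_norm]
    refine le_trans ?_ (norm_snd_le _)
    refine le_trans ?_ (Li_le _ (2 * u N + 1))
    have e1 : (C (e (u N)) - C (e (u (N + 1)))).2 (2 * u N + 1) =
        im (e (u N)) (2 * u N + 1) - im (e (u (N + 1))) (2 * u N + 1) := rfl
    rw [e1, im_odd, im_odd]
    simp [e, lp.single_apply, hne]
  simp only [Function.comp] at h1
  linarith

/-- **There is a Banach space of analytic functions on the unit disc with a strictly singular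
non-compact composition operator.** -/
theorem result : ∃ (E : Type) (_ : NormedAddCommGroup E) (_ : NormedSpace ℂ E)
    (ι : E →ₗ[ℂ] (𝔻 → ℂ)) (φ : ℂ → ℂ) (hφ : MapsTo φ 𝔻 𝔻) (T : E →L[ℂ] E),
    IsBanachSpaceOfAnalyticFunctions E ι ∧ AnalyticOnNhd ℂ φ 𝔻 ∧
    (∀ (f : E) (z : 𝔻), ι (T f) z = ι f ⟨φ z, hφ z.2⟩) ∧
    StrictlySingular T ∧ ¬ IsCompactOperator T :=
  ⟨E, inferInstance, inferInstance, ι, fun z => z ^ 2 / 2, maps, C, isBanach,
    DifferentiableOn.analyticOnNhd (Differentiable.differentiableOn (by fun_prop)) isOpen_ball,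
    fun f z => C_spec f z z.2, strictlySingular, not_compact⟩

end Pool.Agent.Results.MP_628ecd_an.SquareHalf
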